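import Pool.Agent.FS.MHDNon.Basic

/-!
A priori bounds for the clipped Galerkin system.
-/

namespace Pool.Agent.FS.MHDNon

open Set Filter Topology Real

/-- clipping to `[0, u]` -/
def clip (u x : ℝ) : ℝ := max 0 (min x u)

theorem clip_nonneg (u x : ℝ) : 0 ≤ clip u x := le_max_left _ _
theorem clip_le {u : ℝ} (hu : 0 ≤ u) (x : ℝ) : clip u x ≤ u := max_le hu (min_le_right _ _)
theorem clip_eq {u x : ℝ} (h0 : 0 ≤ x) (h1 : x ≤ u) : clip u x = x := by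
  unfold clip; rw [min_eq_left h1, max_eq_right h0]
theorem clip_le_self {u x : ℝ} (h0 : 0 ≤ x) : clip u x ≤ x := max_le h0 (min_le_left _ _)
theorem clip_neg {u x : ℝ} (h0 : x ≤ 0) : clip u x = 0 :=
  max_eq_left ((min_le_left _ _).trans h0)
theorem clip_ge {u x m : ℝ} (h1 : m ≤ x) (h2 : m ≤ u) : m ≤ clip u x :=
  le_max_of_le_right (le_min h1 h2)

theorem hd_right {S s t d : ℝ} {f : ℝ → ℝ} (hs : 0 ≤ s) (ht : t ≤ S) {r : ℝ} (hr : r ∈ Ico s t)
    (h : HasDerivWithinAt f d (Icc 0 S) r) : HasDerivWithinAt f d (Ici r) r :=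
  h.mono_of_mem_nhdsWithin (mem_of_superset (Icc_mem_nhdsGE (hr.2.trans_le ht))
    (Icc_subset_Icc_left (hs.trans hr.1)))

theorem mono_of {S s t : ℝ} {F F' : ℝ → ℝ} (hs : 0 ≤ s) (hst : s ≤ t) (ht : t ≤ S)
    (hd : ∀ r ∈ Icc 0 S, HasDerivWithinAt F (F' r) (Icc 0 S) r)
    (h0 : ∀ r ∈ Ico s t, 0 ≤ F' r) : F s ≤ F t := by
  have hc : ContinuousOn F (Icc s t) :=
    (HasDerivWithinAt.continuousOn hd).mono (Icc_subset_Icc hs ht)
  exact image_le_of_deriv_right_le_deriv_boundary (f := fun _ => F s) (f' := fun _ => 0)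
    continuousOn_const (fun x _ => hasDerivWithinAt_const _ _ _) le_rfl hc
    (fun r hr => hd_right hs ht hr (hd r ⟨hs.trans hr.1, hr.2.le.trans ht⟩)) h0 ⟨hst, le_rfl⟩

namespace Par
variable (P : Par)

noncomputable def ha (A : ℕ → ℝ → ℝ) (t : ℝ) (j : ℕ) : ℝ := clip (P.V (P.k j * t)) (A j t)
noncomputable def hw (W : ℕ → ℝ → ℝ) (t : ℝ) (j : ℕ) : ℝ := clip P.η (W j t)

/-- solution of the clipped Galerkin system with seed `ε` at the top shell `N` -/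
structure Gal (N : ℕ) (S ε : ℝ) (A W : ℕ → ℝ → ℝ) : Prop where
  out : ∀ j t, (j = 0 ∨ N < j) → A j t = 0 ∧ W j t = 0
  dA : ∀ j, 1 ≤ j → j ≤ N → ∀ t ∈ Icc 0 S,
    HasDerivWithinAt (A j) (P.G1 j t (P.ha A t) (P.hw W t)) (Icc 0 S) t
  dW : ∀ j, 1 ≤ j → j ≤ N → ∀ t ∈ Icc 0 S,
    HasDerivWithinAt (W j) (P.G2 j t (P.ha A t) (P.hw W t)) (Icc 0 S) t
  iA : ∀ j, 1 ≤ j → j ≤ N → A j 0 = 1
  iW : ∀ j, j < N → W j 0 = 0
  iN : W N 0 = ε
  e0 : 0 ≤ ε

theorem ha0 (A : ℕ → ℝ → ℝ) (t : ℝ) (j : ℕ) : 0 ≤ P.ha A t j := clip_nonneg _ _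
theorem hw0 (W : ℕ → ℝ → ℝ) (t : ℝ) (j : ℕ) : 0 ≤ P.hw W t j := clip_nonneg _ _
theorem haV (A : ℕ → ℝ → ℝ) {t : ℝ} (ht : 0 ≤ t) (j : ℕ) : P.ha A t j ≤ P.V (P.k j * t) :=
  clip_le (P.V_pos (mul_nonneg (P.k_pos j).le ht)).le _
theorem hwη (W : ℕ → ℝ → ℝ) (t : ℝ) (j : ℕ) : P.hw W t j ≤ P.η := clip_le P.hη.le _
theorem E_pos (j : ℕ) (t : ℝ) : 0 < P.E j t := exp_pos _
theorem E_le (j : ℕ) {t : ℝ} (ht : 0 ≤ t) : P.E j t ≤ 1 := by
  unfold E; rw [exp_le_one_iff]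
  have := P.k_pos j; have := P.L_pos
  apply div_nonpos_of_nonpos_of_nonneg <;> nlinarith [mul_nonneg (P.k_pos j).le ht]
theorem E_succ (j : ℕ) (t : ℝ) : P.E (j + 1) t = exp (-2 * (P.k j * t)) := by
  unfold E; rw [k_succ]; congr 1; field_simp [P.L_pos.ne']
theorem R_pos (j : ℕ) (t : ℝ) : 0 < P.R j t := exp_pos _
theorem R_bounds (j : ℕ) {t : ℝ} (ht : 0 ≤ t) :
    exp (-2 * (P.k j * t)) ≤ P.R j t ∧ P.R j t ≤ exp (-(3 / 2) * (P.k j * t)) := by
  have h := mul_nonneg (P.k_pos j).le ht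
  have hL := P.hL
  have h1 : 0 ≤ 2 * (P.k j * t) / P.L := by positivity
  have h2 : 2 * (P.k j * t) / P.L ≤ (P.k j * t) / 2 := by
    rw [div_le_div_iff₀ (by linarith) (by norm_num)]; nlinarith
  exact ⟨exp_le_exp.2 (by linarith), exp_le_exp.2 (by linarith)⟩

variable {P} {N : ℕ} {S ε : ℝ} {A W : ℕ → ℝ → ℝ}

theorem Gal.upper (h : P.Gal N S ε A W) {j : ℕ} (h1 : 1 ≤ j) (h2 : j ≤ N) :
    ∀ t ∈ Icc 0 S, A j t ≤ P.V (P.k j * t) := by
  obtain ⟨i, rfl⟩ : ∃ i, j = i + 1 := ⟨j - 1, by omega⟩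
  have hk := P.k_pos (i + 1)
  have hB : ∀ t, 0 ≤ t → HasDerivAt (fun t => P.V (P.k (i + 1) * t))
      (P.dV (P.k (i + 1) * t) * P.k (i + 1)) t := fun t ht =>
    ((P.V_deriv (mul_nonneg hk.le ht)).comp t
      ((hasDerivAt_id t).const_mul (P.k (i + 1)))).congr_deriv (by simp)
  refine image_le_of_deriv_right_lt_deriv_boundary' (HasDerivWithinAt.continuousOn (h.dA _ h1 h2))
    (fun r hr => hd_right le_rfl le_rfl hr (h.dA _ h1 h2 r ⟨hr.1, hr.2.le⟩)) ?_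
    (fun r hr => (hB r hr.1).continuousAt.continuousWithinAt)
    (fun r hr => (hB r hr.1).hasDerivWithinAt) ?_
  · have e : P.V 0 = 1 + 3 * P.η + 40 * P.η ^ 3 := by unfold V; simp
    have := P.hη
    have : 0 < P.η ^ 3 := by positivity
    simp only [mul_zero]
    rw [h.iA _ h1 h2, e]; linarith
  · intro r hr he
    have hx : 0 ≤ P.k (i + 1) * r := mul_nonneg hk.le hr.1
    have e : P.ha A r (i + 1) = P.V (P.k (i + 1) * r) := by
      unfold ha; rw [he]; exact clip_eq (P.V_pos hx).le le_rfl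
    have ex : P.k i * r = P.k (i + 1) * r / P.L := by rw [k_succ]; field_simp [P.L_pos.ne']
    have u := P.upper_ineq hx
    have b1 : P.ha A r i ^ 2 ≤ P.V (P.k (i + 1) * r / P.L) ^ 2 := by
      rw [← ex]; exact pow_le_pow_left₀ (P.ha0 _ _ _) (P.haV A hr.1 i) 2
    have b2 : (P.E i r * P.hw W r i) ^ 2 ≤
        (exp (-2 * (P.k (i + 1) * r / P.L) / P.L) * P.η) ^ 2 := by
      rw [← ex]
      exact pow_le_pow_left₀ (mul_nonneg (P.E_pos _ _).le (P.hw0 _ _ _))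
        (mul_le_mul_of_nonneg_left (P.hwη W r i) (P.E_pos i r).le) 2
    have b3 : 0 ≤ P.V (P.k (i + 1) * r) * P.ha A r (i + 1 + 1) :=
      mul_nonneg (P.V_pos hx).le (P.ha0 _ _ _)
    have b4 : 0 ≤ (P.E (i + 1) r * P.hw W r (i + 1)) * (P.E (i + 1 + 1) r * P.hw W r (i + 1 + 1)) :=
      mul_nonneg (mul_nonneg (P.E_pos _ _).le (P.hw0 _ _ _))
        (mul_nonneg (P.E_pos _ _).le (P.hw0 _ _ _))
    have b5 := mul_le_mul_of_nonneg_left (add_le_add b1 b2) P.hη.le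
    unfold G1
    rw [e, Nat.add_sub_cancel, mul_comm (P.dV _)]
    apply mul_lt_mul_of_pos_left _ hk
    linarith

theorem Gal.lower (h : P.Gal N S ε A W) {j : ℕ} (h1 : 1 ≤ j) (h2 : j ≤ N) :
    ∀ t ∈ Icc 0 S, P.Lo (P.k j * t) ≤ A j t := by
  have hk := P.k_pos j
  have hB : ∀ t, HasDerivAt (fun t => P.Lo (P.k j * t)) ((-(3 / 2) * P.Lo (P.k j * t) - P.L / 4 *
      (exp (-(3 / 2) * (P.k j * t)) * exp (-P.L * (P.k j * t)))) * P.k j) t := fun t =>
    ((P.Lo_deriv _).comp t ((hasDerivAt_id t).const_mul (P.k j))).congr_deriv (by simp)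
  refine image_le_of_deriv_right_lt_deriv_boundary'
    (fun r _ => (hB r).continuousAt.continuousWithinAt) (fun r _ => (hB r).hasDerivWithinAt) ?_
    (HasDerivWithinAt.continuousOn (h.dA _ h1 h2))
    (fun r hr => hd_right le_rfl le_rfl hr (h.dA _ h1 h2 r ⟨hr.1, hr.2.le⟩)) ?_
  · rw [h.iA _ h1 h2]; unfold Lo; norm_num
  · intro r hr he
    have hx : 0 ≤ P.k j * r := mul_nonneg hk.le hr.1
    obtain ⟨l1, l2, l3⟩ := P.Lo_bounds hx
    have p1 := exp_pos (-(3 / 2) * (P.k j * r))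
    have p2 := exp_pos (-P.L * (P.k j * r))
    have e : P.ha A r j = P.Lo (P.k j * r) := by
      unfold ha; rw [← he]; exact clip_eq (by linarith) l3
    have b1 : P.ha A r (j + 1) ≤ exp (-P.L * (P.k j * r)) + 4 * P.η := by
      have := (P.haV A hr.1 (j + 1)).trans (P.V_le' (mul_nonneg (P.k_pos _).le hr.1))
      rwa [k_succ, mul_assoc, ← neg_mul] at this
    have b2 : (P.E j r * P.hw W r j) * (P.E (j + 1) r * P.hw W r (j + 1)) ≤
        (1 * P.η) * (exp (-(3 / 2) * (P.k j * r)) * P.η) := by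
      have := P.E_pos j r; have := P.E_pos (j + 1) r; have := P.hw0 W r j
      have := P.hw0 W r (j + 1); have := P.hη
      have : P.E (j + 1) r ≤ exp (-(3 / 2) * (P.k j * r)) := by
        rw [E_succ]; exact exp_le_exp.2 (by linarith)
      gcongr
      · exact P.E_le j hr.1
      · exact P.hwη _ _ _
      · exact P.hwη _ _ _
    have b3 : 0 ≤ P.η * (P.ha A r (j - 1) ^ 2 + (P.E (j - 1) r * P.hw W r (j - 1)) ^ 2) :=
      mul_nonneg P.hη.le (by positivity)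
    have b4 : P.Lo (P.k j * r) * P.ha A r (j + 1) ≤
        P.Lo (P.k j * r) * (exp (-P.L * (P.k j * r)) + 4 * P.η) :=
      mul_le_mul_of_nonneg_left b1 (by linarith)
    have b5 : P.Lo (P.k j * r) * exp (-P.L * (P.k j * r)) ≤
        3 / 4 * exp (-(3 / 2) * (P.k j * r)) * exp (-P.L * (P.k j * r)) :=
      mul_le_mul_of_nonneg_right l2 p2.le
    have b6 : P.Lo (P.k j * r) * P.η ≤ P.Lo (P.k j * r) * (1 / 14400) :=
      mul_le_mul_of_nonneg_left P.hη1 (by linarith)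
    have b7 : P.η * P.η ≤ 1 / 14400 * (1 / 14400) := by have := P.hη; have := P.hη1; gcongr
    have b8 := mul_le_mul_of_nonneg_left b7 p1.le
    have b9 := mul_le_mul_of_nonneg_left P.hL (mul_pos p1 p2).le
    have p3 := mul_pos p1 p2
    unfold G1
    rw [e, mul_comm _ (P.k j)]
    apply mul_lt_mul_of_pos_left _ hk
    nlinarith

theorem Gal.A0 (h : P.Gal N S ε A W) (j : ℕ) {t : ℝ} (ht : t ∈ Icc 0 S) :
    0 ≤ A j t ∧ A j t ≤ P.V (P.k j * t) := by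
  have hx : 0 ≤ P.k j * t := mul_nonneg (P.k_pos j).le ht.1
  by_cases hj : j = 0 ∨ N < j
  · rw [(h.out j t hj).1]; exact ⟨le_rfl, (P.V_pos hx).le⟩
  · have := h.lower (j := j) (by omega) (by omega) t ht
    have := (P.Lo_bounds hx).1
    have := exp_pos (-(3 / 2) * (P.k j * t))
    exact ⟨by linarith, h.upper (by omega) (by omega) t ht⟩

theorem Gal.haA (h : P.Gal N S ε A W) {t : ℝ} (ht : t ∈ Icc 0 S) :
    P.ha A t = fun j => A j t :=
  funext fun j => clip_eq (h.A0 j ht).1 (h.A0 j ht).2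

theorem src0 (A W : ℕ → ℝ → ℝ) (j : ℕ) (t : ℝ) :
    0 ≤ P.ha A t j * P.R j t * P.hw W t (j + 1) :=
  mul_nonneg (mul_nonneg (P.ha0 _ _ _) (P.R_pos _ _).le) (P.hw0 _ _ _)

theorem Gal.W0 (h : P.Gal N S ε A W) (j : ℕ) {t : ℝ} (ht : t ∈ Icc 0 S) : 0 ≤ W j t := by
  by_cases hj : j = 0 ∨ N < j
  · rw [(h.out j t hj).2]
  have h1 : 1 ≤ j := by omega
  have h2 : j ≤ N := by omega
  have i0 : 0 ≤ W j 0 := by
    rcases h2.lt_or_eq with h3 | h3
    · rw [h.iW j h3]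
    · rw [h3, h.iN]; exact h.e0
  have key : ∀ e : ℝ, 0 < e → -e * (1 + t) ≤ W j t := fun e he => by
    have hB : ∀ r : ℝ, HasDerivAt (fun r : ℝ => -e * (1 + r)) (-e) r := fun r =>
      (((hasDerivAt_id r).const_add 1).const_mul (-e)).congr_deriv (by simp)
    refine image_le_of_deriv_right_lt_deriv_boundary' (f := fun r => -e * (1 + r))
      (fun r _ => (hB r).continuousAt.continuousWithinAt) (fun r _ => (hB r).hasDerivWithinAt)
      (by simp only [add_zero, mul_one]; linarith)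
      (HasDerivWithinAt.continuousOn (h.dW _ h1 h2))
      (fun r hr => hd_right le_rfl le_rfl hr (h.dW _ h1 h2 r ⟨hr.1, hr.2.le⟩)) ?_ ht
    intro r hr hee
    have e0 : P.hw W r j = 0 := clip_neg (by rw [← hee]; nlinarith [hr.1])
    have := mul_nonneg (P.k_pos j).le (src0 (P := P) A W j r)
    unfold G2; rw [e0]; nlinarith
  refine le_of_forall_pos_le_add fun e he => ?_
  have h3 : 0 < 1 + t := by linarith [ht.1]
  have := key (e / (1 + t)) (by positivity)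
  rw [neg_mul, div_mul_cancel₀ _ h3.ne'] at this
  linarith

end Par
end Pool.Agent.FS.MHDNon
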