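import Pool.Agent.FS.MHDNon.Gain

/-!
Existence of Galerkin solutions with prescribed amplitude.
-/

namespace Pool.Agent.FS.MHDNon

open Set Filter Topology Real Metric

/-- bounded, Lipschitz in the state uniformly in time, continuous in time -/
def BL {X : Type} [PseudoMetricSpace X] (S : ℝ) (φ : ℝ → X → ℝ) : Prop :=
  (∀ x, ContinuousOn (φ · x) (Icc 0 S)) ∧ ∃ C : ℝ, 0 ≤ C ∧ ∀ t ∈ Icc 0 S, ∀ x y,
    |φ t x| ≤ C ∧ |φ t x - φ t y| ≤ C * dist x y

section
variable {X : Type} [PseudoMetricSpace X] {S : ℝ} {φ ψ : ℝ → X → ℝ}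

theorem BL.time {c : ℝ → ℝ} (hc : Continuous c) : BL S (fun t (_ : X) => c t) := by
  obtain ⟨C, hC⟩ := isCompact_Icc.exists_bound_of_continuousOn (hc.continuousOn (s := Icc 0 S))
  refine ⟨fun _ => hc.continuousOn, max C 0, le_max_right _ _, fun t ht x y =>
    ⟨(hC t ht).trans (le_max_left _ _), ?_⟩⟩
  simp only [sub_self, abs_zero]; positivity

theorem BL.add (h1 : BL S φ) (h2 : BL S ψ) : BL S (fun t x => φ t x + ψ t x) := by
  obtain ⟨c1, C, C0, hC⟩ := h1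
  obtain ⟨c2, D, D0, hD⟩ := h2
  refine ⟨fun x => (c1 x).add (c2 x), C + D, by positivity, fun t ht x y => ?_⟩
  obtain ⟨a, b⟩ := hC t ht x y
  obtain ⟨c, d⟩ := hD t ht x y
  refine ⟨(abs_add_le _ _).trans (by linarith), ?_⟩
  have : φ t x + ψ t x - (φ t y + ψ t y) = (φ t x - φ t y) + (ψ t x - ψ t y) := by ring
  rw [this]; exact (abs_add_le _ _).trans (by linarith)

theorem BL.mul (h1 : BL S φ) (h2 : BL S ψ) : BL S (fun t x => φ t x * ψ t x) := by
  obtain ⟨c1, C, C0, hC⟩ := h1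
  obtain ⟨c2, D, D0, hD⟩ := h2
  refine ⟨fun x => (c1 x).mul (c2 x), 2 * (C * D), by positivity, fun t ht x y => ?_⟩
  obtain ⟨a, b⟩ := hC t ht x y
  obtain ⟨c, d⟩ := hD t ht x y
  have e := (hC t ht y x).1
  have f1 : |φ t x| * |ψ t x| ≤ C * D := by gcongr
  refine ⟨by rw [abs_mul]; nlinarith [mul_nonneg C0 D0], ?_⟩
  have : φ t x * ψ t x - φ t y * ψ t y = (φ t x - φ t y) * ψ t x + φ t y * (ψ t x - ψ t y) := by
    ring
  rw [this]
  refine (abs_add_le _ _).trans ?_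
  rw [abs_mul, abs_mul]
  have f2 : |φ t x - φ t y| * |ψ t x| ≤ C * dist x y * D := by gcongr
  have f3 : |φ t y| * |ψ t x - ψ t y| ≤ C * (D * dist x y) := by gcongr
  linarith

theorem BL.neg (h1 : BL S φ) : BL S (fun t x => -φ t x) := by
  simpa using (BL.time (S := S) (X := X) (c := fun _ => -1) continuous_const).mul h1

theorem BL.sub (h1 : BL S φ) (h2 : BL S ψ) : BL S (fun t x => φ t x - ψ t x) := by
  simpa [sub_eq_add_neg] using h1.add h2.neg

theorem BL.sq (h1 : BL S φ) : BL S (fun t x => φ t x ^ 2) := by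
  simpa [pow_two] using h1.mul h1

theorem BL.clip {u : ℝ → ℝ} (hu : ContinuousOn u (Icc 0 S)) (hu2 : ∀ t ∈ Icc 0 S, 0 ≤ u t ∧ u t ≤ 2)
    {p : X → ℝ} (hp : ∀ x y, |p x - p y| ≤ dist x y) : BL S (fun t x => clip (u t) (p x)) := by
  refine ⟨fun x => ?_, 2, by norm_num, fun t ht x y => ⟨?_, ?_⟩⟩
  · exact continuousOn_const.sup (continuousOn_const.inf hu)
  · rw [abs_of_nonneg (clip_nonneg _ _)]; exact (clip_le (hu2 t ht).1 _).trans (hu2 t ht).2
  · have h1 : |MHDNon.clip (u t) (p x) - MHDNon.clip (u t) (p y)| ≤ |p x - p y| := by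
      unfold MHDNon.clip
      refine (abs_max_sub_max_le_max _ _ _ _).trans (max_le (by simp) ?_)
      exact (abs_min_sub_min_le_max _ _ _ _).trans (max_le le_rfl (by simp))
    linarith [hp x y, dist_nonneg (x := x) (y := y)]
end

noncomputable def ext {N : ℕ} (x : Fin (N + 1) → ℝ × ℝ) (j : ℕ) : ℝ × ℝ :=
  if h : 1 ≤ j ∧ j ≤ N then x ⟨j, by omega⟩ else 0

theorem ext_lip {N : ℕ} (j : ℕ) (x y : Fin (N + 1) → ℝ × ℝ) :
    dist (ext x j) (ext y j) ≤ dist x y := by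
  unfold ext; split_ifs
  · exact dist_le_pi_dist x y _
  · simp

namespace Par
variable (P : Par)

noncomputable def fld (N : ℕ) (t : ℝ) (x : Fin (N + 1) → ℝ × ℝ) : Fin (N + 1) → ℝ × ℝ := fun i =>
  (P.G1 i t (fun j => clip (P.V (P.k j * t)) (ext x j).1) (fun j => clip P.η (ext x j).2),
   P.G2 i t (fun j => clip (P.V (P.k j * t)) (ext x j).1) (fun j => clip P.η (ext x j).2))

theorem fld_BL (N : ℕ) (S : ℝ) (i : Fin (N + 1)) :
    BL S (fun t x => (P.fld N t x i).1) ∧ BL S (fun t x => (P.fld N t x i).2) := by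
  have a : ∀ j, BL S (fun t (x : Fin (N + 1) → ℝ × ℝ) => clip (P.V (P.k j * t)) (ext x j).1) := by
    intro j
    have hx : ∀ t ∈ Icc 0 S, 0 ≤ P.k j * t := fun t ht => mul_nonneg (P.k_pos j).le ht.1
    refine BL.clip (fun t ht => ?_) (fun t ht => ⟨(P.V_pos (hx t ht)).le, P.V_le_two (hx t ht)⟩)
      fun x y => le_trans ?_ (ext_lip j x y)
    · exact ((P.V_deriv (hx t ht)).continuousAt.comp (f := fun t => P.k j * t)
        (by fun_prop)).continuousWithinAt
    · rw [Prod.dist_eq, ← Real.dist_eq]; exact le_max_left _ _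
  have w : ∀ j, BL S (fun (_ : ℝ) (x : Fin (N + 1) → ℝ × ℝ) => clip P.η (ext x j).2) := by
    intro j
    refine BL.clip continuousOn_const (fun t _ => ⟨P.hη.le, by linarith [P.hη1]⟩)
      fun x y => le_trans ?_ (ext_lip j x y)
    rw [Prod.dist_eq, ← Real.dist_eq]; exact le_max_right _ _
  have c : ∀ r : ℝ, BL S (fun (_ : ℝ) (_ : Fin (N + 1) → ℝ × ℝ) => r) := fun r =>
    BL.time continuous_const
  have e : ∀ j, BL S (fun t (_ : Fin (N + 1) → ℝ × ℝ) => P.E j t) := fun j =>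
    BL.time (by unfold E; fun_prop)
  have r : ∀ j, BL S (fun t (_ : Fin (N + 1) → ℝ × ℝ) => P.R j t) := fun j =>
    BL.time (by unfold R; fun_prop)
  exact ⟨(c _).mul ((((a _).neg.sub (((c _).mul (a _)).mul (a _))).add
      ((c _).mul ((a _).sq.add ((e _).mul (w _)).sq))).sub
      (((c _).mul ((e _).mul (w _))).mul ((e _).mul (w _)))),
    (c _).mul (((a _).mul (w _)).neg.add (((a _).mul (r _)).mul (w _)))⟩

theorem exists_gal (N : ℕ) (hN : 1 ≤ N) {S : ℝ} (hS : P.tt 1 ≤ S) {s : ℝ} (s0 : 0 ≤ s)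
    (hs : s ≤ P.η / 4) : ∃ ε A W, P.Gal N S ε A W ∧ W 1 (P.tt 1) = s := by
  have S0 : 0 ≤ S := (P.tt_pos 1).le.trans hS
  have hb := P.fld_BL N S
  choose C1 C10 hC1 using fun i => (hb i).1.2
  choose C2 C20 hC2 using fun i => (hb i).2.2
  obtain ⟨C, C0, hC⟩ : ∃ C : ℝ, 0 ≤ C ∧ ∀ i, C1 i ≤ C ∧ C2 i ≤ C := by
    refine ⟨∑ i, (C1 i + C2 i), Finset.sum_nonneg fun i _ => add_nonneg (C10 i) (C20 i), fun i => ?_⟩
    have := Finset.single_le_sum (f := fun i => C1 i + C2 i)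
      (fun i _ => add_nonneg (C10 i) (C20 i)) (Finset.mem_univ i)
    exact ⟨by linarith [C20 i], by linarith [C10 i]⟩
  let x0 : ℝ → Fin (N + 1) → ℝ × ℝ := fun e i => (1, if i.1 = N then e else 0)
  have pl : IsPicardLindelof (P.fld N) (⟨0, le_rfl, S0⟩ : Icc 0 S) (x0 0)
      ⟨C * S + 1, by positivity⟩ 1 ⟨C, C0⟩ ⟨C, C0⟩ := by
    refine ⟨fun t ht => (LipschitzWith.of_dist_le_mul fun x y => ?_).lipschitzOnWith,
      fun x _ => continuousOn_pi.2 fun i => ((hb i).1.1 x).prodMk ((hb i).2.1 x),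
      fun t ht x _ => ?_, ?_⟩
    · refine (dist_pi_le_iff (by positivity)).2 fun i => ?_
      rw [Prod.dist_eq, Real.dist_eq, Real.dist_eq]
      exact max_le ((hC1 i t ht x y).2.trans (mul_le_mul_of_nonneg_right (hC i).1 dist_nonneg))
        ((hC2 i t ht x y).2.trans (mul_le_mul_of_nonneg_right (hC i).2 dist_nonneg))
    · refine (pi_norm_le_iff_of_nonneg C0).2 fun i => ?_
      rw [Prod.norm_def]
      exact max_le ((hC1 i t ht x x).1.trans (hC i).1) ((hC2 i t ht x x).1.trans (hC i).2)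
    · change C * max (S - 0) (0 - 0) ≤ C * S + 1 - 1
      simp [S0]
  obtain ⟨α, hα, L', hL'⟩ := pl.exists_forall_mem_closedBall_eq_hasDerivWithinAt_lipschitzOnWith
  have mem : ∀ e ∈ Icc 0 P.η, x0 e ∈ closedBall (x0 0) ((1 : NNReal) : ℝ) := by
    intro e he
    rw [mem_closedBall, dist_pi_le_iff (by norm_num)]
    intro i
    have := P.hη1
    simp only [x0, Prod.dist_eq, dist_self, NNReal.coe_one]
    split_ifs
    · rw [Real.dist_eq, sub_zero, abs_of_nonneg he.1]; exact max_le (by norm_num) (by linarith [he.2])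
    · simp
  have gal : ∀ e ∈ Icc 0 P.η, P.Gal N S e (fun j t => (ext (α (x0 e) t) j).1)
      (fun j t => (ext (α (x0 e) t) j).2) := by
    intro e he
    obtain ⟨i0, hd⟩ := hα _ (mem e he)
    have ee : ∀ j (h : 1 ≤ j ∧ j ≤ N) (x : Fin (N + 1) → ℝ × ℝ), ext x j = x ⟨j, by omega⟩ :=
      fun j h x => dif_pos h
    have i0' : α (x0 e) 0 = x0 e := i0
    refine ⟨fun j t hj => ?_, fun j h1 h2 t ht => ?_, fun j h1 h2 t ht => ?_, fun j h1 h2 => ?_,
      fun j hj => ?_, ?_, he.1⟩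
    · have : ext (α (x0 e) t) j = 0 := dif_neg (by omega)
      simp [this]
    · simp only [ee j ⟨h1, h2⟩]
      exact (hasDerivWithinAt_pi.1 (hd t ht) ⟨j, by omega⟩).fst
    · simp only [ee j ⟨h1, h2⟩]
      exact (hasDerivWithinAt_pi.1 (hd t ht) ⟨j, by omega⟩).snd
    · simp only [ee j ⟨h1, h2⟩, i0', x0]
    · by_cases h1 : 1 ≤ j
      · simp only [ee j ⟨h1, hj.le⟩, i0', x0, if_neg hj.ne]
      · have : ext (α (x0 e) 0) j = 0 := dif_neg (by omega)
        simp [this]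
    · simp only [ee N ⟨hN, le_rfl⟩, i0', x0, if_true]
  have tm : P.tt 1 ∈ Icc 0 S := ⟨(P.tt_pos 1).le, hS⟩
  have cx : Continuous x0 := by
    refine continuous_pi fun i => continuous_const.prodMk ?_
    split_ifs <;> fun_prop
  have ce : Continuous fun x : Fin (N + 1) → ℝ × ℝ => (ext x 1).2 :=
    (LipschitzWith.of_dist_le_mul (K := 1) fun x y => by simpa using ext_lip 1 x y).continuous.snd
  have cont : ContinuousOn (fun e => (ext (α (x0 e) (P.tt 1)) 1).2) (Icc 0 P.η) :=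
    ce.comp_continuousOn ((hL' _ tm).continuousOn.comp cx.continuousOn mem)
  have lo := (gal 0 ⟨le_rfl, P.hη.le⟩).zero 1 le_rfl _ tm
  have hi := (gal P.η ⟨P.hη.le, le_rfl⟩).big hS hN
  obtain ⟨e, he, hes⟩ := intermediate_value_Icc P.hη.le cont (a := 0) ⟨lo.trans s0, hs.trans hi⟩
  exact ⟨e, _, _, gal e he, hes⟩

end Par
end Pool.Agent.FS.MHDNon
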