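import Pool.Agent.FS.MHDNon.Limit

/-!
Back to physical variables; energy inequality and decay bound.
-/

namespace Pool.Agent.FS.MHDNon

open Set Filter Topology Real

theorem energy {ν μ L m T : ℝ} {a b : ℕ → ℝ → ℝ} (hm : 0 < m)
    (z : ∀ t ∈ Icc 0 T, a 0 t = 0 ∧ b 0 t = 0)
    (c : ∀ j, ContinuousOn (a j) (Icc 0 T) ∧ ContinuousOn (b j) (Icc 0 T))
    (da : ∀ i, ∀ t ∈ Ioo 0 T, HasDerivAt (a (i + 1)) (-(ν * L ^ (i + 1) * a (i + 1) t)
      - m ^ (i + 1) * (a (i + 1) t * a (i + 2) t + b (i + 1) t * b (i + 2) t)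
      + m ^ i * (a i t ^ 2 + b i t ^ 2)) t)
    (db : ∀ i, ∀ t ∈ Ioo 0 T, HasDerivAt (b (i + 1)) (-(μ * L ^ (i + 1) * b (i + 1) t)
      + m ^ (i + 1) * (a (i + 1) t * b (i + 2) t - b (i + 1) t * a (i + 2) t)) t)
    (pos : ∀ j, ∀ t ∈ Icc 0 T, 0 ≤ a j t) {s t : ℝ} (hs : 0 ≤ s) (hst : s ≤ t) (ht : t ≤ T)
    (n : ℕ) : ∑ j ∈ Finset.range n, (a j t ^ 2 + b j t ^ 2) + 2 * ∑ j ∈ Finset.range n,
      L ^ j * ∫ r in s..t, (ν * a j r ^ 2 + μ * b j r ^ 2) ≤
      ∑ j ∈ Finset.range n, (a j s ^ 2 + b j s ^ 2) := by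
  have sub : Icc s t ⊆ Icc 0 T := Icc_subset_Icc hs ht
  have cd : ∀ j, ContinuousOn (fun r => ν * a j r ^ 2 + μ * b j r ^ 2) (Icc s t) := fun j =>
    ((((c j).1.pow 2).const_smul ν).add (((c j).2.pow 2).const_smul μ)).mono sub
  rcases n with _ | n
  · simp
  have key : ∀ n, ∀ r ∈ Ioo 0 T, HasDerivAt
      (fun r => ∑ j ∈ Finset.range (n + 1), (a j r ^ 2 + b j r ^ 2))
      (-2 * ∑ j ∈ Finset.range (n + 1), L ^ j * (ν * a j r ^ 2 + μ * b j r ^ 2)
        - 2 * (m ^ n * (a n r ^ 2 + b n r ^ 2) * a (n + 1) r)) r := by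
    intro n r hr
    induction n with
    | zero =>
      have e : (fun r => ∑ j ∈ Finset.range (0 + 1), (a j r ^ 2 + b j r ^ 2)) =ᶠ[𝓝 r]
          fun _ => (0 : ℝ) := by
        filter_upwards [Icc_mem_nhds hr.1 hr.2] with u hu
        simp [(z u hu).1, (z u hu).2]
      refine ((hasDerivAt_const r (0 : ℝ)).congr_of_eventuallyEq e).congr_deriv ?_
      simp [(z r (Ioo_subset_Icc_self hr)).1, (z r (Ioo_subset_Icc_self hr)).2]
    | succ n ih =>
      simp only [Finset.sum_range_succ _ (n + 1)]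
      refine (ih.fun_add (((da n r hr).fun_pow 2).fun_add ((db n r hr).fun_pow 2))).congr_deriv ?_
      simp only [Nat.cast_ofNat, Nat.add_one_sub_one, pow_one]
      ring
  have := intervalIntegral.sub_le_integral_of_hasDeriv_right_of_le hst
    (g := fun r => ∑ j ∈ Finset.range (n + 1), (a j r ^ 2 + b j r ^ 2))
    (φ := fun r => -2 * ∑ j ∈ Finset.range (n + 1), L ^ j * (ν * a j r ^ 2 + μ * b j r ^ 2))
    (continuousOn_finsetSum _ fun j _ => (((c j).1.pow 2).add ((c j).2.pow 2)).mono sub)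
    (fun r hr => (key n r ⟨hs.trans_lt hr.1, hr.2.trans_le ht⟩).hasDerivWithinAt)
    ((continuousOn_const.mul (continuousOn_finsetSum _ fun j _ =>
      continuousOn_const.mul (cd j))).integrableOn_Icc)
    (fun r hr => by
      have := pos (n + 1) r (sub (Ioo_subset_Icc_self hr))
      have : 0 ≤ m ^ n * (a n r ^ 2 + b n r ^ 2) * a (n + 1) r := by positivity
      linarith)
  rw [intervalIntegral.integral_const_mul, intervalIntegral.integral_finsetSum
    (f := fun j r => L ^ j * (ν * a j r ^ 2 + μ * b j r ^ 2)) fun j _ =>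
    (continuousOn_const.mul (cd j)).intervalIntegrable_of_Icc hst] at this
  simp only [intervalIntegral.integral_const_mul] at this
  linarith

namespace Par
variable (P : Par)

theorem decay (j : ℕ) {t : ℝ} (ht : 0 ≤ t) :
    P.V (P.k j * t) ≤ 2 * (1 + P.L ^ 2 / P.ν) / (1 + P.L ^ j * t) ∧
      P.E j t ≤ 2 * (1 + P.L ^ 2 / P.ν) / (1 + P.L ^ j * t) := by
  have hL := P.L_pos; have hν := P.hν; have hη := P.hη; have hL2 := P.hL
  have hx : 0 ≤ P.k j * t := mul_nonneg (P.k_pos j).le ht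
  unfold E
  have hy : 0 ≤ P.L ^ j * t := by positivity
  have exy : P.k j * t = P.ν * (P.L ^ j * t) := by unfold k; ring
  set x := P.k j * t
  set y := P.L ^ j * t
  have g1 : 1 / (1 + x / P.L ^ 2) ≤ (1 + P.L ^ 2 / P.ν) / (1 + y) := by
    rw [div_le_div_iff₀ (by positivity) (by positivity)]
    have e : P.L ^ 2 / P.ν * (x / P.L ^ 2) = y := by rw [exy]; field_simp
    have : 0 ≤ x / P.L ^ 2 := by positivity
    have : 0 ≤ P.L ^ 2 / P.ν := by positivity
    nlinarith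
  have g2 : exp (-(x / P.L ^ 2)) ≤ 1 / (1 + x / P.L ^ 2) := by
    rw [le_div_iff₀ (by positivity), exp_neg, inv_mul_le_iff₀ (exp_pos _), mul_one]
    linarith [add_one_le_exp (x / P.L ^ 2)]
  have g3 : x / P.L ^ 2 ≤ x / P.L := div_le_div_of_nonneg_left hx hL (by nlinarith)
  have g4 : x / P.L ≤ x := div_le_self hx (by linarith)
  have g0 : 0 ≤ x / P.L := by positivity
  have a1 : exp (-x) ≤ 1 / (1 + x / P.L ^ 2) := (exp_le_exp.2 (by linarith)).trans g2
  have a2 : exp (-x / P.L) ≤ 1 / (1 + x / P.L ^ 2) :=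
    (exp_le_exp.2 (by rw [neg_div]; linarith)).trans g2
  have a3 : exp (-2 * x / P.L) ≤ 1 / (1 + x / P.L ^ 2) :=
    (exp_le_exp.2 (by rw [mul_div_assoc]; linarith)).trans g2
  have g5 : 0 < 1 / (1 + x / P.L ^ 2) := by positivity
  rw [mul_div_assoc 2]
  refine ⟨?_, by linarith⟩
  unfold V
  rw [div_eq_mul_one_div (40 * P.η ^ 3)]
  nlinarith [P.eta3, P.hη1, mul_le_mul_of_nonneg_left a2 hη.le]

end Par

/-- everything the hand-in needs about one solution, in physical variables -/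
structure Phys (ν L m T C q s : ℝ) (a b : ℕ → ℝ → ℝ) : Prop where
  z : ∀ t ∈ Icc 0 T, a 0 t = 0 ∧ b 0 t = 0
  c : ∀ j, ContinuousOn (a j) (Icc 0 T) ∧ ContinuousOn (b j) (Icc 0 T)
  da : ∀ i, ∀ t ∈ Ioo 0 T, HasDerivAt (a (i + 1)) (-(ν * L ^ (i + 1) * a (i + 1) t)
      - m ^ (i + 1) * (a (i + 1) t * a (i + 2) t + b (i + 1) t * b (i + 2) t)
      + m ^ i * (a i t ^ 2 + b i t ^ 2)) t
  db : ∀ i, ∀ t ∈ Ioo 0 T, HasDerivAt (b (i + 1)) (-(2 * ν / L * L ^ (i + 1) * b (i + 1) t)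
      + m ^ (i + 1) * (a (i + 1) t * b (i + 2) t - b (i + 1) t * a (i + 2) t)) t
  pos : ∀ j, ∀ t ∈ Icc 0 T, 0 ≤ a j t
  bd : ∀ j, ∀ t ∈ Icc 0 T, |a j t| ≤ C * q ^ j / (1 + L ^ j * t) ∧
    |b j t| ≤ C * q ^ j / (1 + L ^ j * t)
  ia : ∀ i, a (i + 1) 0 = 160 * ν / q * q ^ (i + 1)
  ib : ∀ j, b j 0 = 0
  b0 : s = 0 → ∀ j, ∀ t ∈ Icc 0 T, b j t = 0
  b1 : 0 < s → ∃ j, ∃ t ∈ Icc 0 T, b j t ≠ 0

theorem exists_phys (P : Par) {m q T s : ℝ} (hq : 0 < q) (hmq : m * q = P.L)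
    (hη : P.η * (q ^ 2 * P.L) = 160) (hT : 0 < T) (s0 : 0 ≤ s) (hs : s ≤ P.η / 4) :
    ∃ a b, Phys P.ν P.L m T (160 * P.ν / q * (2 * (1 + P.L ^ 2 / P.ν))) q s a b := by
  obtain ⟨A, W, h⟩ := P.exists_lim (S := max T (P.tt 1)) (le_max_right _ _) s0 hs
  have sub : Icc 0 T ⊆ Icc 0 (max T (P.tt 1)) := Icc_subset_Icc_right (le_max_left _ _)
  have nb : ∀ t ∈ Ioo 0 T, Icc 0 (max T (P.tt 1)) ∈ 𝓝 t := fun t ht =>
    Icc_mem_nhds ht.1 (ht.2.trans_le (le_max_left _ _))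
  have hν := P.hν; have hL := P.L_pos; have h0 := P.hη; have h1 := P.hη1
  have cA : ∀ j, ContinuousOn (A j) (Icc 0 T) ∧ ContinuousOn (W j) (Icc 0 T) := by
    intro j
    rcases Nat.eq_zero_or_pos j with rfl | hj
    · exact ⟨continuousOn_const.congr fun t ht => (h.zero t (sub ht)).1,
        continuousOn_const.congr fun t ht => (h.zero t (sub ht)).2⟩
    · exact ⟨(HasDerivWithinAt.continuousOn (h.dA j hj)).mono sub,
        (HasDerivWithinAt.continuousOn (h.dW j hj)).mono sub⟩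
  have dE : ∀ j t, HasDerivAt (P.E j) (P.E j t * (-2 * P.k j / P.L)) t := fun j t =>
    (((((hasDerivAt_id t).const_mul (P.k j)).const_mul (-2)).div_const P.L).exp).congr_deriv
      (by simp [Par.E])
  have eη : P.η = 160 / (q ^ 2 * (m * q)) := by rw [hmq, eq_div_iff (by positivity), hη]
  have hm : 0 < m := by
    by_contra hm
    nlinarith [mul_nonneg (neg_nonneg.2 (not_lt.1 hm)) hq.le]
  have cq : ∀ j : ℕ, 0 < 160 * P.ν / q * q ^ j := fun j => by positivity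
  refine ⟨fun j t => 160 * P.ν / q * q ^ j * A j t,
    fun j t => 160 * P.ν / q * q ^ j * (P.E j t * W j t), fun t ht => ?_, fun j => ⟨?_, ?_⟩,
    fun i t ht => ?_, fun i t ht => ?_, fun j t ht => ?_, fun j t ht => ?_, fun i => ?_,
    fun j => ?_, fun e j t ht => ?_, fun sp => ?_⟩
  · simp [(h.zero t (sub ht)).1, (h.zero t (sub ht)).2]
  · exact continuousOn_const.mul (cA j).1
  · have cE : ContinuousOn (P.E j) (Icc 0 T) :=
      fun t _ => (dE j t).continuousAt.continuousWithinAt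
    exact continuousOn_const.mul (cE.mul (cA j).2)
  · refine (((h.dA (i + 1) (by omega) t (sub (Ioo_subset_Icc_self ht))).hasDerivAt
      (nb t ht)).const_mul _).congr_deriv ?_
    unfold Par.G1 Par.k
    rw [Nat.add_sub_cancel, eη, ← hmq]
    simp only [mul_pow]
    field_simp
    ring
  · refine (((dE (i + 1) t).fun_mul ((h.dW (i + 1) (by omega) t
      (sub (Ioo_subset_Icc_self ht))).hasDerivAt (nb t ht))).const_mul _).congr_deriv ?_
    have e : P.E (i + 2) t = P.E (i + 1) t * P.R (i + 1) t := by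
      rw [P.E_succ (i + 1)]; unfold Par.E Par.R; rw [← exp_add]; congr 1; ring
    unfold Par.G2
    rw [e]
    unfold Par.k
    rw [← hmq]
    simp only [mul_pow]
    field_simp
    ring
  · exact mul_nonneg (cq j).le (h.bA j t (sub ht)).1
  · obtain ⟨d1, d2⟩ := P.decay j ht.1
    obtain ⟨a1, a2⟩ := h.bA j t (sub ht)
    obtain ⟨w1, w2⟩ := h.bW j t (sub ht)
    have e0 := P.E_pos j t
    have e : 160 * P.ν / q * (2 * (1 + P.L ^ 2 / P.ν)) * q ^ j / (1 + P.L ^ j * t) =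
        160 * P.ν / q * q ^ j * (2 * (1 + P.L ^ 2 / P.ν) / (1 + P.L ^ j * t)) := by ring
    have := cq j
    rw [e, abs_of_nonneg (by positivity), abs_of_nonneg (by positivity)]
    refine ⟨mul_le_mul_of_nonneg_left (a2.trans d1) this.le,
      mul_le_mul_of_nonneg_left (le_trans ?_ d2) this.le⟩
    exact mul_le_of_le_one_right e0.le (by linarith)
  · simp [h.iA (i + 1) (by omega)]
  · simp [h.iW j]
  · have := h.bW j t (sub ht)
    have : W j t = 0 := by linarith [this.1, this.2]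
    simp [this]
  · obtain ⟨i, hi⟩ := pow_unbounded_of_one_lt (4 / (P.ν * T)) (show 1 < P.L by linarith [P.hL])
    have tm : P.tt (i + 1) ≤ T := by
      refine (P.tt_succ_le i).trans ?_
      unfold Par.tt Par.k
      rw [div_le_iff₀ (by positivity)]
      rw [div_lt_iff₀ (by positivity)] at hi
      nlinarith
    refine ⟨i + 1, P.tt (i + 1), ⟨(P.tt_pos _).le, tm⟩, ?_⟩
    have : 0 < W (i + 1) (P.tt (i + 1)) := lt_of_lt_of_le (by positivity) (h.keep i)
    exact (mul_pos (cq _) (mul_pos (P.E_pos _ _) this)).ne'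

end Pool.Agent.FS.MHDNon
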