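import Pool.Agent.FS.MHDNon.Exist

/-!
Passage to the limit along an ultrafilter.
-/

namespace Pool.Agent.FS.MHDNon

open Set Filter Topology Real

namespace Par
variable (P : Par)

theorem G_bound (j : ℕ) {t : ℝ} (ht : 0 ≤ t) {a w : ℕ → ℝ} (ha : ∀ i, 0 ≤ a i ∧ a i ≤ 2)
    (hw : ∀ i, 0 ≤ w i ∧ w i ≤ 1) :
    |P.G1 j t a w| ≤ P.k j * 1000 ∧ |P.G2 j t a w| ≤ P.k j * 1000 := by
  have hk := P.k_pos j
  have ew : ∀ i, 0 ≤ P.E i t * w i ∧ P.E i t * w i ≤ 1 := fun i =>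
    ⟨mul_nonneg (P.E_pos _ _).le (hw i).1, mul_le_one₀ (P.E_le i ht) (hw i).1 (hw i).2⟩
  have m : ∀ {x y c d : ℝ}, 0 ≤ x ∧ x ≤ c → 0 ≤ y ∧ y ≤ d → 0 ≤ x * y ∧ x * y ≤ c * d :=
    fun hx hy => ⟨mul_nonneg hx.1 hy.1, mul_le_mul hx.2 hy.2 hy.1 (hx.1.trans hx.2)⟩
  have r1 : 0 ≤ P.R j t ∧ P.R j t ≤ 1 := ⟨(P.R_pos _ _).le, (P.R_bounds j ht).2.trans (by
    rw [exp_le_one_iff]; nlinarith [mul_nonneg hk.le ht])⟩
  have b1 := m (ha j) (ha (j + 1))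
  have b2 := m (ha (j - 1)) (ha (j - 1))
  have b3 := m (ew (j - 1)) (ew (j - 1))
  have b4 := m (ew j) (ew (j + 1))
  have b5 := m (ha (j + 1)) (hw j)
  have b6 := m (m (ha j) r1) (hw (j + 1))
  have b7 := m (x := P.η) (c := 1) ⟨P.hη.le, by linarith [P.hη1]⟩
    (y := a (j - 1) ^ 2 + (P.E (j - 1) t * w (j - 1)) ^ 2) (d := 5) ⟨by positivity, by nlinarith⟩
  have b8 := ha j
  constructor
  · unfold G1
    rw [abs_mul, abs_of_pos hk]
    apply mul_le_mul_of_nonneg_left _ hk.le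
    rw [abs_le]; constructor <;> nlinarith
  · unfold G2
    rw [mul_assoc, abs_mul, abs_of_pos hk]
    apply mul_le_mul_of_nonneg_left _ hk.le
    rw [abs_le]; constructor <;> nlinarith

/-- solution of the full normalised system with amplitude `s` -/
structure Lim (S s : ℝ) (A W : ℕ → ℝ → ℝ) : Prop where
  zero : ∀ t ∈ Icc 0 S, A 0 t = 0 ∧ W 0 t = 0
  dA : ∀ j, 1 ≤ j → ∀ t ∈ Icc 0 S,
    HasDerivWithinAt (A j) (P.G1 j t (fun i => A i t) (fun i => W i t)) (Icc 0 S) t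
  dW : ∀ j, 1 ≤ j → ∀ t ∈ Icc 0 S,
    HasDerivWithinAt (W j) (P.G2 j t (fun i => A i t) (fun i => W i t)) (Icc 0 S) t
  iA : ∀ j, 1 ≤ j → A j 0 = 1
  iW : ∀ j, W j 0 = 0
  bA : ∀ j, ∀ t ∈ Icc 0 S, 0 ≤ A j t ∧ A j t ≤ P.V (P.k j * t)
  bW : ∀ j, ∀ t ∈ Icc 0 S, 0 ≤ W j t ∧ W j t ≤ 2 * s
  keep : ∀ i, s / 427 ^ i ≤ W (i + 1) (P.tt (i + 1))

theorem ulim (U : Ultrafilter ℕ) (S : ℝ) (f : ℕ → ℕ → ℝ → ℝ)
    (h : ∀ N j, ∀ t ∈ Icc 0 S, 0 ≤ f N j t ∧ f N j t ≤ 2) :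
    ∃ g : ℕ → ℝ → ℝ, ∀ j, ∀ t ∈ Icc 0 S, Tendsto (fun N => f N j t) U (𝓝 (g j t)) := by
  have : ∀ j t, ∃ x, t ∈ Icc 0 S → Tendsto (fun N => f N j t) U (𝓝 x) := by
    intro j t
    by_cases ht : t ∈ Icc 0 S
    · obtain ⟨x, _, hx⟩ := (isCompact_Icc (a := (0 : ℝ)) (b := 2)).ultrafilter_le_nhds
        (U.map fun N => f N j t) (by
          rw [Ultrafilter.coe_map, le_principal_iff, mem_map]
          exact Eventually.of_forall fun N => h N j t ht)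
      exact ⟨x, fun _ => hx⟩
    · exact ⟨0, fun h => absurd h ht⟩
  choose g hg using this
  exact ⟨g, fun j t ht => hg j t ht⟩

theorem exists_lim {S : ℝ} (hS : P.tt 1 ≤ S) {s : ℝ} (s0 : 0 ≤ s) (hs : s ≤ P.η / 4) :
    ∃ A W, P.Lim S s A W := by
  have S0 : (0 : ℝ) ∈ Icc 0 S := ⟨le_rfl, (P.tt_pos 1).le.trans hS⟩
  choose ε A W hG h0 using fun N => P.exists_gal (N + 1) (by omega) hS s0 hs
  have hη := P.hη
  have hη1 := P.hη1
  have bW : ∀ N j, ∀ t ∈ Icc 0 S, 0 ≤ W N j t ∧ W N j t ≤ 2 * s := by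
    intro N j t ht
    refine ⟨(hG N).W0 j ht, ?_⟩
    rcases Nat.eq_zero_or_pos j with rfl | hj
    · rw [((hG N).out 0 t (Or.inl rfl)).2]; linarith
    · linarith [(hG N).harnack hS hs (h0 N).le j hj t ht, ((hG N).small hS hs (h0 N).le j hj).1]
  have bA : ∀ N j, ∀ t ∈ Icc 0 S, 0 ≤ A N j t ∧ A N j t ≤ 2 := fun N j t ht =>
    ⟨((hG N).A0 j ht).1, ((hG N).A0 j ht).2.trans (P.V_le_two (mul_nonneg (P.k_pos j).le ht.1))⟩
  have bW1 : ∀ N j, ∀ t ∈ Icc 0 S, 0 ≤ W N j t ∧ W N j t ≤ 1 := fun N j t ht =>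
    ⟨(bW N j t ht).1, by linarith [(bW N j t ht).2]⟩
  have eW : ∀ N, ∀ t ∈ Icc 0 S, P.hw (W N) t = fun j => W N j t := fun N t ht =>
    funext fun j => clip_eq (bW N j t ht).1 (by linarith [(bW N j t ht).2])
  have dA : ∀ N j, 1 ≤ j → j ≤ N + 1 → ∀ t ∈ Icc 0 S, HasDerivWithinAt (A N j)
      (P.G1 j t (fun i => A N i t) (fun i => W N i t)) (Icc 0 S) t := fun N j h1 h2 t ht => by
    have := (hG N).dA j h1 h2 t ht
    rwa [(hG N).haA ht, eW N t ht] at this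
  have dW : ∀ N j, 1 ≤ j → j ≤ N + 1 → ∀ t ∈ Icc 0 S, HasDerivWithinAt (W N j)
      (P.G2 j t (fun i => A N i t) (fun i => W N i t)) (Icc 0 S) t := fun N j h1 h2 t ht => by
    have := (hG N).dW j h1 h2 t ht
    rwa [(hG N).haA ht, eW N t ht] at this
  have lip : ∀ j N, ∀ r ∈ Icc 0 S, ∀ u ∈ Icc 0 S, |A N j r - A N j u| ≤ P.k j * 1000 * |r - u| ∧
      |W N j r - W N j u| ≤ P.k j * 1000 * |r - u| := by
    intro j N r hr u hu
    have hk := P.k_pos j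
    by_cases hj : j = 0 ∨ N + 1 < j
    · rw [((hG N).out j r hj).1, ((hG N).out j u hj).1, ((hG N).out j r hj).2,
        ((hG N).out j u hj).2, sub_self, abs_zero]
      exact ⟨by positivity, by positivity⟩
    · exact ⟨(convex_Icc 0 S).norm_image_sub_le_of_norm_hasDerivWithin_le
        (dA N j (by omega) (by omega))
        (fun t ht => (P.G_bound j ht.1 (fun i => bA N i t ht) (fun i => bW1 N i t ht)).1) hu hr,
        (convex_Icc 0 S).norm_image_sub_le_of_norm_hasDerivWithin_le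
        (dW N j (by omega) (by omega))
        (fun t ht => (P.G_bound j ht.1 (fun i => bA N i t ht) (fun i => bW1 N i t ht)).2) hu hr⟩
  obtain ⟨a, ha⟩ := ulim (hyperfilter ℕ) S A bA
  obtain ⟨w, hw⟩ := ulim (hyperfilter ℕ) S W fun N j t ht =>
    ⟨(bW1 N j t ht).1, by linarith [(bW1 N j t ht).2]⟩
  have ev : ∀ j, ∀ᶠ N in (hyperfilter ℕ : Filter ℕ), j ≤ N := fun j =>
    Nat.hyperfilter_le_atTop (eventually_ge_atTop j)
  have cst : ∀ {f : ℕ → ℝ} {x c : ℝ}, Tendsto f (hyperfilter ℕ) (𝓝 x) →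
      (∀ᶠ N in (hyperfilter ℕ : Filter ℕ), f N = c) → x = c := fun h1 h2 =>
    tendsto_nhds_unique h1 (tendsto_const_nhds.congr' (h2.mono fun _ h => h.symm))
  have joint : ∀ t ∈ Icc 0 S, Tendsto (fun p : ℕ × ℝ => (p.2, (fun i => A p.1 i p.2),
      (fun i => W p.1 i p.2))) ((hyperfilter ℕ : Filter ℕ) ×ˢ 𝓝[Icc 0 S] t)
      (𝓝 (t, (fun i => a i t), (fun i => w i t))) := fun t ht =>
    (tendsto_snd.mono_right nhdsWithin_le_nhds).prodMk_nhds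
      ((tendsto_pi_nhds.2 fun i => lim_coord (f := fun N => A N i) ht
        (fun N r hr u hu => (lip i N r hr u hu).1) (ha i t ht)).prodMk_nhds
      (tendsto_pi_nhds.2 fun i => lim_coord (f := fun N => W N i) ht
        (fun N r hr u hu => (lip i N r hr u hu).2) (hw i t ht)))
  have c1 : ∀ j, Continuous fun q : ℝ × (ℕ → ℝ) × (ℕ → ℝ) => P.G1 j q.1 q.2.1 q.2.2 := fun j => by
    unfold G1 E; fun_prop
  have c2 : ∀ j, Continuous fun q : ℝ × (ℕ → ℝ) × (ℕ → ℝ) => P.G2 j q.1 q.2.1 q.2.2 := fun j => by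
    unfold G2 R; fun_prop
  refine ⟨a, w, fun t ht => ⟨?_, ?_⟩, fun j hj t ht => ?_, fun j hj t ht => ?_, fun j hj => ?_,
    fun j => ?_, fun j t ht => ⟨?_, ?_⟩, fun j t ht => ⟨?_, ?_⟩, fun i => ?_⟩
  · exact cst (ha 0 t ht) (Eventually.of_forall fun N => ((hG N).out 0 t (Or.inl rfl)).1)
  · exact cst (hw 0 t ht) (Eventually.of_forall fun N => ((hG N).out 0 t (Or.inl rfl)).2)
  · exact lim_deriv (f := fun N => A N j)
      (g := fun N r => P.G1 j r (fun i => A N i r) (fun i => W N i r)) ht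
      ((ev j).mono fun N hN => dA N j hj (by omega)) (((c1 j).tendsto _).comp (joint t ht)) (ha j)
  · exact lim_deriv (f := fun N => W N j)
      (g := fun N r => P.G2 j r (fun i => A N i r) (fun i => W N i r)) ht
      ((ev j).mono fun N hN => dW N j hj (by omega)) (((c2 j).tendsto _).comp (joint t ht)) (hw j)
  · exact cst (ha j 0 S0) ((ev j).mono fun N hN => (hG N).iA j hj (by omega))
  · exact cst (hw j 0 S0) ((ev j).mono fun N hN => (hG N).iW j (by omega))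
  · exact ge_of_tendsto' (ha j t ht) fun N => ((hG N).A0 j ht).1
  · exact le_of_tendsto' (ha j t ht) fun N => ((hG N).A0 j ht).2
  · exact ge_of_tendsto' (hw j t ht) fun N => (bW N j t ht).1
  · exact le_of_tendsto' (hw j t ht) fun N => (bW N j t ht).2
  · exact ge_of_tendsto (hw (i + 1) _ ⟨(P.tt_pos _).le, (P.tt_anti (by omega)).trans hS⟩)
      ((ev i).mono fun N hN => (hG N).keep hS hs (h0 N) i (by omega))

end Par
end Pool.Agent.FS.MHDNon
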